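import Pool.Agent.Y227.UD.Gap
import Pool.Agent.TH571.GP.Final

set_option autoImplicit false

/-!
The uniform density gap for the primes with nonvanishing `p`-curvature.
-/

open Polynomial Pool.Agent.W432.PC Pool.Agent.W432.TC Pool.Agent.TH571.GP

namespace Pool.Agent.Y227.UD

universe u

section

variable {R : Type u} [CommRing R] [IsDomain R] {n r : ℕ}

/-- There are a set of at least `ε * φ(N)` residue classes modulo `N`, prime to `N`, and a nonzero
`g` in `R`, such that the `p`-curvature is nonzero at every closed point of `Spec R[1/g]` whose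
residue characteristic is a large prime in one of these classes. -/
def BadPrimes (α : Fin n → R) (A : Fin n → Matrix (Fin r) (Fin r) R) (N : ℕ) (ε : ℝ) : Prop :=
  ∃ (S : Finset (ZMod N)ˣ) (g : R) (P₀ : ℕ), ε * N.totient ≤ S.card ∧ g ≠ 0 ∧
    ∀ p : ℕ, p.Prime → P₀ < p → (∃ v ∈ S, ((p : ℕ) : ZMod N) = ((v : (ZMod N)ˣ) : ZMod N)) →
      ∀ (𝔪 : Ideal R) [𝔪.IsMaximal], (p : R) ∈ 𝔪 → g ∉ 𝔪 → ¬ PCurvZeroAt α A 𝔪

lemma BadPrimes.mono {α : Fin n → R} {A : Fin n → Matrix (Fin r) (Fin r) R} {N : ℕ} {ε ε' : ℝ}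
    (h : BadPrimes α A N ε) (hε : ε' ≤ ε) : BadPrimes α A N ε' := by
  obtain ⟨S, g, P₀, h1, h2⟩ := h
  exact ⟨S, g, P₀, (mul_le_mul_of_nonneg_right hε (Nat.cast_nonneg _)).trans h1, h2⟩

/-- Collecting the classes. -/
lemma collect (α : Fin n → R) (A : Fin n → Matrix (Fin r) (Fin r) R) (N : ℕ) (hN : 0 < N)
    (ε : ℝ) (S : Finset (ZMod N)ˣ) (hS : ε * N.totient ≤ S.card)
    (h : ∀ u ∈ S, ∃ a : ℤ, ((a : ℤ) : ZMod N) = ((u : (ZMod N)ˣ) : ZMod N) ∧ ∃ g : R, g ≠ 0 ∧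
      ∃ P₀ : ℕ, ∀ p : ℕ, p.Prime → P₀ < p → (N : ℤ) ∣ a * p + 1 →
        ∀ (𝔪 : Ideal R) [𝔪.IsMaximal], (p : R) ∈ 𝔪 → g ∉ 𝔪 → ¬ PCurvZeroAt α A 𝔪) :
    BadPrimes α A N ε := by
  classical
  have : NeZero N := ⟨hN.ne'⟩
  choose! a ha g hg P hP using h
  refine ⟨S.image (fun u => -u⁻¹), ∏ u ∈ S, g u, S.sup P, ?_, ?_, ?_⟩
  · rw [Finset.card_image_of_injective]
    · exact hS
    · intro u v huv
      have h1 : -u⁻¹ = -v⁻¹ := huv
      exact inv_injective (neg_injective h1)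
  · exact Finset.prod_ne_zero_iff.mpr hg
  · rintro p hp hpP ⟨v, hv, hpv⟩ 𝔪 h𝔪 hpm hgm
    obtain ⟨u, hu, rfl⟩ := Finset.mem_image.mp hv
    refine hP u hu p hp (lt_of_le_of_lt (Finset.le_sup hu) hpP) ?_ 𝔪 hpm ?_
    · rw [← ZMod.intCast_zmod_eq_zero_iff_dvd]
      push_cast
      rw [ha u hu, hpv, Units.val_neg, mul_neg, Units.mul_inv, neg_add_cancel]
    · intro hgu
      exact hgm (𝔪.mem_of_dvd (Finset.dvd_prod_of_mem g hu) hgu)

end

/-- The gap theorem for the Weyl inequalities. -/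
theorem gap_weyl (n r : ℕ) :
    ∃ ε : ℝ, 0 < ε ∧ ∀ x : ExponentIndex n r → ℚ,
      (∃ z : ℤ, ∑ i, (traceRelation n r i : ℚ) * x i = z) →
      ∀ N : ℕ, 0 < N → (∀ i, ∃ z : ℤ, (N : ℚ) * x i = z) →
        (∃ a : ℤ, IsCoprime a (N : ℤ) ∧ ¬ WeylBoth (fun i => (a : ℝ) * x i)) →
        ∃ S : Finset (ZMod N)ˣ, ε * N.totient ≤ S.card ∧
          ∀ u ∈ S, ∀ a : ℤ, ((a : ℤ) : ZMod N) = ((u : (ZMod N)ˣ) : ZMod N) →
            ¬ WeylBoth (fun i => (a : ℝ) * x i) := by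
  obtain ⟨ε, hε, h⟩ := gap (traceRelation n r)
    {z : ExponentIndex n r → ℝ | (∃ e : ℤ, ∑ i, (traceRelation n r i : ℝ) * z i = e) ∧ ¬ WeylBoth z} (by
    rintro z ⟨⟨e, he⟩, hz⟩
    rw [tr_sum] at he
    unfold WeylBoth at hz
    rw [not_and_or] at hz
    rcases hz with hz | hz
    · obtain ⟨δ, hδ, h⟩ := weyl_open _ _ ⟨e, he⟩ hz
      refine ⟨δ, hδ, fun x hx hnear => ⟨hx, fun hW => ?_⟩⟩
      exact h _ _ (fun j l => hnear _) (fun l => hnear _) hW.1
    · obtain ⟨δ, hδ, h⟩ := weyl_open _ _ ⟨-e, by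
        simp only [Finset.sum_neg_distrib]; push_cast; rw [← he]; ring⟩ hz
      refine ⟨δ, hδ, fun x hx hnear => ⟨hx, fun hW => ?_⟩⟩
      refine h _ _ (fun j l => ?_) (fun l => ?_) hW.2
      · obtain ⟨z', hz'⟩ := hnear (Sum.inl (j, l))
        refine ⟨-z', ?_⟩
        push_cast
        rw [← abs_neg]
        have h1 : -(-x (Sum.inl (j, l)) - -z (Sum.inl (j, l)) - -(z' : ℝ)) =
          x (Sum.inl (j, l)) - z (Sum.inl (j, l)) - z' := by ring
        rw [h1]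
        exact hz'
      · obtain ⟨z', hz'⟩ := hnear (Sum.inr l)
        refine ⟨-z', ?_⟩
        push_cast
        rw [← abs_neg]
        have h1 : -(-x (Sum.inr l) - -z (Sum.inr l) - -(z' : ℝ)) =
          x (Sum.inr l) - z (Sum.inr l) - z' := by ring
        rw [h1]
        exact hz')
  refine ⟨ε, hε, fun x hx N hN hNx hex => ?_⟩
  obtain ⟨S, hS1, hS2⟩ := h x hx N hN hNx (by
    obtain ⟨a, ha, haW⟩ := hex
    refine ⟨a, ha, ?_, haW⟩
    obtain ⟨z, hz⟩ := hx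
    refine ⟨a * z, ?_⟩
    have hz' : ∑ i, (traceRelation n r i : ℝ) * x i = z := by
      have := congrArg (fun q : ℚ => (q : ℝ)) hz
      push_cast at this
      exact this
    push_cast
    rw [← hz', Finset.mul_sum]
    exact Finset.sum_congr rfl fun i _ => by ring)
  exact ⟨S, hS1, fun u hu a hau => (hS2 u hu a hau).2⟩

/-- A positive lower bound of finitely many positive numbers. -/
lemma exists_lower {ι : Type*} [Fintype ι] (f : ι → ℝ) (hf : ∀ i, 0 < f i) :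
    ∃ ε : ℝ, 0 < ε ∧ ∀ i, ε ≤ f i := by
  classical
  have h0 : ∀ i, 0 < 1 / f i := fun i => one_div_pos.mpr (hf i)
  have h1 : 0 < ∑ i, 1 / f i + 1 := by
    have := Finset.sum_nonneg fun i (_ : i ∈ Finset.univ) => (h0 i).le
    linarith
  refine ⟨1 / (∑ i, 1 / f i + 1), by positivity, fun i => ?_⟩
  have h2 : 1 / f i ≤ ∑ i, 1 / f i :=
    Finset.single_le_sum (f := fun i => 1 / f i) (fun i _ => (h0 i).le) (Finset.mem_univ i)
  rw [div_le_iff₀ h1]
  have h3 : f i * (1 / f i) = 1 := by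
    have := (hf i).ne'
    field_simp
  nlinarith [hf i]

/-- The uniform density gap. -/
theorem final (n r : ℕ) (hn : 2 ≤ n) :
    ∃ (ε : ℝ) (𝒟 : Finset (AddSubgroup (ExponentIndex n r → ℤ) × (ExponentIndex n r → ℚ))),
      0 < ε ∧
      (∀ C ∈ 𝒟, ∃ m : Fin (r + 1) → ExponentIndex n r → ℤ,
        LinearIndependent ℤ m ∧ ∀ k, m k ∈ C.1) ∧
      ∀ (R : Type u) [CommRing R] [IsDomain R] [CharZero R] [Algebra.FiniteType ℤ R]
        (α : Fin n → R) (A : Fin n → Matrix (Fin r) (Fin r) R)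
        (lam : Fin n → Fin r → ℚ) (phi : Fin r → ℚ) (N : ℕ),
        (∀ i j, i ≠ j → IsUnit (α i - α j)) →
        (∀ j, HasExponents (A j) (lam j)) → HasExponents (∑ j, A j) phi →
        0 < N → (∀ j l, ∃ m : ℤ, (N : ℚ) * lam j l = m) → (∀ l, ∃ m : ℤ, (N : ℚ) * phi l = m) →
        HasAlgebraicSolutions α A ∨ (BadPrimes α A N ε ∧ ¬ CondII α A) ∨
          ((∃ C ∈ 𝒟, InCoset C.1 C.2 (fun i => ((Sum.elim (fun p => lam p.1 p.2) phi i : ℚ) : ℝ))) ∧
            ∀ a : ℤ, IsCoprime a (N : ℤ) → WeylBoth (fun i => (a : ℝ) *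
              ((Sum.elim (fun p => lam p.1 p.2) phi : ExponentIndex n r → ℚ) i : ℚ))) := by
  classical
  obtain ⟨𝒟₁, h𝒟₁, hcov⟩ := cosets n r
  obtain ⟨ε₁, hε₁, hgap⟩ := gap_weyl n r
  have hn1 : (0 : ℝ) < (n : ℝ) + 1 := by positivity
  have hδ : (0 : ℝ) < 1 / (4 * ((n : ℝ) + 1)) := by positivity
  choose K Q E hE hKQ using fun (σ : Option (Fin n) → Equiv.Perm (Fin r)) (l₀ : Fin r) =>
    equidist (Lsig σ) (0 : ExponentIndex n r → ℚ) (tgt σ l₀) (tgt_coset σ l₀) _ hδ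
  obtain ⟨ε₂, hε₂, hε₂E⟩ := exists_lower
    (fun t : (Option (Fin n) → Equiv.Perm (Fin r)) × Fin r => E t.1 t.2) (fun t => hE t.1 t.2)
  let K' : ℕ := ∑ σ, ∑ l₀, K σ l₀ + 1
  let Q' : ℕ := ∑ σ, ∑ l₀, Q σ l₀ + 1
  have hK' : ∀ σ l₀, K σ l₀ ≤ K' := fun σ l₀ =>
    (Finset.single_le_sum (f := fun l₀ => K σ l₀) (fun _ _ => Nat.zero_le _) (Finset.mem_univ l₀)).trans
      ((Finset.single_le_sum (f := fun σ => ∑ l₀, K σ l₀) (fun _ _ => Nat.zero_le _)
        (Finset.mem_univ σ)).trans (Nat.le_succ _))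
  have hQ' : ∀ σ l₀, Q σ l₀ ≤ Q' := fun σ l₀ =>
    (Finset.single_le_sum (f := fun l₀ => Q σ l₀) (fun _ _ => Nat.zero_le _) (Finset.mem_univ l₀)).trans
      ((Finset.single_le_sum (f := fun σ => ∑ l₀, Q σ l₀) (fun _ _ => Nat.zero_le _)
        (Finset.mem_univ σ)).trans (Nat.le_succ _))
  let box : Finset (ExponentIndex n r → ℤ) :=
    Fintype.piFinset fun _ => Finset.Icc (-(K' : ℤ)) K'
  let 𝒟₂ : Finset (AddSubgroup (ExponentIndex n r → ℤ) × (ExponentIndex n r → ℚ)) :=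
    (Finset.univ ×ˢ (box ×ˢ Finset.Icc 1 Q')).biUnion fun t :
      (Option (Fin n) → Equiv.Perm (Fin r)) × ((ExponentIndex n r → ℤ) × ℕ) =>
      if t.2.1 ∈ Lsig t.1 then ∅ else
        {(Lsig t.1 ⊔ AddSubgroup.zmultiples ((t.2.2 : ℤ) • t.2.1), 0)}
  let good : AddSubgroup (ExponentIndex n r → ℤ) × (ExponentIndex n r → ℚ) → Prop := fun C =>
    ∃ m : Fin (r + 1) → ExponentIndex n r → ℤ, LinearIndependent ℤ m ∧ ∀ k, m k ∈ C.1
  refine ⟨min ε₁ ε₂, 𝒟₁.filter good ∪ 𝒟₂, lt_min hε₁ hε₂, fun C hC => ?_, ?_⟩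
  · rcases Finset.mem_union.mp hC with hC | hC
    · exact (Finset.mem_filter.mp hC).2
    · obtain ⟨⟨σ, m, q⟩, ht, hC⟩ := Finset.mem_biUnion.mp hC
      simp only at hC
      split_ifs at hC with hm
      · exact absurd hC (Finset.notMem_empty _)
      · rw [Finset.mem_singleton] at hC
        rw [hC]
        have hq := (Finset.mem_product.mp (Finset.mem_product.mp ht).2).2
        have hq1 := (Finset.mem_Icc.mp hq).1
        refine indep_Lsig hm ?_
        have : (0 : ℤ) < (q : ℤ) := by exact_mod_cast hq1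
        exact this.ne'
  intro R _ _ _ _ α A lam phi N hα hlam hphi hN hNlam hNphi
  have := charZero_fraction (R := R)
  have : NeZero N := ⟨hN.ne'⟩
  -- a set of classes yields the failure of condition (ii)
  have hII : ∀ ε : ℝ, 0 < ε → BadPrimes α A N ε → BadPrimes α A N ε ∧ ¬ CondII α A := by
    intro ε hε hbad
    refine ⟨hbad, ?_⟩
    obtain ⟨S, g, P₀, h1, h2, h3⟩ := hbad
    have hS : S.Nonempty := by
      rw [← Finset.card_pos]
      have h4 : (0 : ℝ) < S.card := lt_of_lt_of_le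
        (mul_pos hε (by exact_mod_cast Nat.totient_pos.mpr hN)) h1
      exact_mod_cast h4
    obtain ⟨v, hv⟩ := hS
    set a : ℤ := (((-v⁻¹ : (ZMod N)ˣ) : ZMod N).val : ℤ) with ha
    have haZ : ((a : ℤ) : ZMod N) = ((-v⁻¹ : (ZMod N)ˣ) : ZMod N) := by
      rw [ha]; push_cast; rw [ZMod.natCast_zmod_val]
    have hcop : IsCoprime a (N : ℤ) := by
      rw [ha]
      exact Nat.isCoprime_iff_coprime.mpr (ZMod.val_coe_unit_coprime _)
    refine not_condII_of α A N hN a hcop ⟨g, h2, P₀, fun p hp hpP hap 𝔪 _ hpm hgm => ?_⟩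
    refine h3 p hp hpP ⟨v, hv, ?_⟩ 𝔪 hpm hgm
    rw [← ZMod.intCast_zmod_eq_zero_iff_dvd] at hap
    push_cast at hap
    rw [haZ, Units.val_neg, neg_mul] at hap
    have h5 : ((v⁻¹ : (ZMod N)ˣ) : ZMod N) * (p : ZMod N) = 1 := by
      have h6 := eq_neg_of_add_eq_zero_left hap
      exact neg_injective h6
    calc ((p : ℕ) : ZMod N) = ((v : (ZMod N)ˣ) : ZMod N) *
          (((v⁻¹ : (ZMod N)ˣ) : ZMod N) * (p : ZMod N)) := by
            rw [← mul_assoc, Units.mul_inv, one_mul]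
      _ = _ := by rw [h5, mul_one]
  have hmin : 0 < min ε₁ ε₂ := lt_min hε₁ hε₂
  set x : ExponentIndex n r → ℚ := Sum.elim (fun p => lam p.1 p.2) phi with hx
  have hNx : ∀ i, ∃ z : ℤ, (N : ℚ) * x i = z := by
    rintro (⟨j, l⟩ | l)
    · exact hNlam j l
    · exact hNphi l
  have htr : ∑ i, (traceRelation n r i : ℚ) * x i = 0 := by
    rw [tr_sum]
    simp only [hx, Sum.elim_inl, Sum.elim_inr]
    have h1 := HasExponents.trace hphi
    have h2 := fun j => HasExponents.trace (hlam j)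
    have h3 : (∑ j, A j).trace = ∑ j, (A j).trace := by
      rw [Matrix.trace_sum]
    rw [h3, map_sum, Finset.sum_congr rfl fun j _ => h2 j] at h1
    have h4 : ((∑ j, ∑ l, lam j l : ℚ) : FractionRing R) =
        ((∑ l, phi l : ℚ) : FractionRing R) := by
      push_cast
      push_cast at h1
      exact h1
    have h5 : ∑ j, ∑ l, lam j l = ∑ l, phi l := by exact_mod_cast h4
    rw [h5, sub_self]
  -- first case: a violation
  by_cases key : ∃ a : ℤ, IsCoprime a (N : ℤ) ∧ ¬ WeylBoth (fun i => (a : ℝ) * x i)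
  · right; left
    obtain ⟨S, hS1, hS2⟩ := hgap x ⟨0, by rw [htr]; simp⟩ N hN hNx key
    refine hII _ hmin (BadPrimes.mono (collect α A N hN ε₁ S hS1 fun u hu => ?_) (min_le_left _ _))
    have hu1 : (((((u : (ZMod N)ˣ) : ZMod N).val : ℤ)) : ZMod N) = ((u : (ZMod N)ˣ) : ZMod N) := by
      push_cast; rw [ZMod.natCast_zmod_val]
    obtain ⟨P₀, hP₀⟩ := exists_bad α hα A lam phi hlam hphi N hN hNlam hNphi _ (hS2 u hu _ hu1)
    exact ⟨_, hu1, 1, one_ne_zero, P₀, fun p hp hpP hap 𝔪 _ hpm _ => hP₀ p hp hpP hap 𝔪 hpm⟩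
  push Not at key
  by_cases hin : ∃ C ∈ 𝒟₁.filter good ∪ 𝒟₂, InCoset C.1 C.2 (fun i => ((x i : ℚ) : ℝ))
  · exact Or.inr (Or.inr ⟨hin, key⟩)
  have hnot := hin
  -- second case: the exponents are on a coset with `r` relations
  obtain ⟨C, hC, hxC⟩ := hcov x ⟨0, by rw [htr]; simp⟩ ⟨N, hN, hNx, key⟩
  have hCgood : ¬ good C := fun h => hnot ⟨C, Finset.mem_union_left _ (Finset.mem_filter.mpr ⟨hC, h⟩), hxC⟩
  obtain ⟨hsat, htrC, hWC⟩ := h𝒟₁ C hC
  obtain ⟨⟨σ, hσ⟩, hint⟩ := coset_structure hsat htrC hWC hCgood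
  have hsum : ∀ l, ∃ z : ℤ, ∑ j, lam j (σ (some j) l) - phi (σ none l) = z := by
    intro l
    obtain ⟨z, hz⟩ := inCoset_rat.mp hxC _ (hσ l)
    obtain ⟨z', hz'⟩ := hint _ (hσ l)
    refine ⟨z + z', ?_⟩
    have h1 : ∑ i, (sumRel σ l i : ℚ) * x i = z + z' := by
      simp only [mul_sub, Finset.sum_sub_distrib] at hz
      linarith
    rw [Int.cast_add, ← h1, Fintype.sum_sum_type, Fintype.sum_prod_type]
    simp only [sumRel_inl, sumRel_inr, hx, Sum.elim_inl, Sum.elim_inr]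
    push_cast
    simp only [ite_mul, one_mul, zero_mul, neg_mul, Finset.sum_ite_eq', Finset.mem_univ, if_true,
      Finset.sum_neg_distrib]
    ring
  have hxL : ∀ m ∈ Lsig σ, ∃ z : ℤ, ∑ i, (m i : ℚ) * x i = z := by
    intro m hm
    choose z hz using hsum
    refine ⟨∑ l, -(m (Sum.inr (σ none l))) * z l, ?_⟩
    rw [sum_Lsig hm]
    push_cast
    refine Finset.sum_congr rfl fun l _ => ?_
    rw [← hz l]
    rfl
  -- the exponents are generic
  have hgen : ∀ m ∉ Lsig σ, (∀ i, |m i| ≤ K') → ∀ q : ℕ, 0 < q → q ≤ Q' →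
      ¬ ∃ z : ℤ, (q : ℚ) * ∑ i, (m i : ℚ) * x i = z := by
    rintro m hm hmK q hq hqQ ⟨z, hz⟩
    refine hnot ⟨(Lsig σ ⊔ AddSubgroup.zmultiples ((q : ℤ) • m), 0), Finset.mem_union_right _ ?_, ?_⟩
    · refine Finset.mem_biUnion.mpr ⟨(σ, m, q), ?_, ?_⟩
      · refine Finset.mem_product.mpr ⟨Finset.mem_univ _, Finset.mem_product.mpr ⟨?_, ?_⟩⟩
        · exact Fintype.mem_piFinset.mpr fun i => Finset.mem_Icc.mpr (abs_le.mp (hmK i))
        · exact Finset.mem_Icc.mpr ⟨hq, hqQ⟩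
      · simp only
        rw [if_neg hm]
        exact Finset.mem_singleton_self _
    · rw [inCoset_rat]
      intro m' hm'
      obtain ⟨m₁, hm₁, m₂, hm₂, rfl⟩ := AddSubgroup.mem_sup.mp hm'
      obtain ⟨k, rfl⟩ := AddSubgroup.mem_zmultiples_iff.mp hm₂
      obtain ⟨z₁, hz₁⟩ := hxL m₁ hm₁
      refine ⟨z₁ + k * z, ?_⟩
      push_cast
      rw [← hz₁, ← hz, Finset.mul_sum, Finset.mul_sum, ← Finset.sum_add_distrib]
      refine Finset.sum_congr rfl fun i _ => ?_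
      simp only [Pi.add_apply, Pi.smul_apply, Pi.zero_apply, smul_eq_mul, sub_zero]
      push_cast
      ring
  have hmon : ∀ l₀, HasMonomialSolution α A (fun j => lam j (σ (some j) l₀)) ∨
      BadPrimes α A N (min ε₁ ε₂) := by
    intro l₀
    refine or_iff_not_imp_left.mpr fun hno => ?_
    obtain ⟨S, hS1, hS2⟩ := hKQ σ l₀ x (by
      intro m hm
      obtain ⟨z, hz⟩ := hxL m hm
      exact ⟨z, by simpa using hz⟩) (fun m hm hmK q hq hqQ => hgen m hm
        (fun i => (hmK i).trans (by exact_mod_cast hK' σ l₀)) q hq (hqQ.trans (hQ' σ l₀))) N hN hNx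
    refine BadPrimes.mono (collect α A N hN (E σ l₀) S hS1 fun u hu => ?_)
      ((min_le_right _ _).trans (hε₂E (σ, l₀)))
    have hu1 : (((((u : (ZMod N)ˣ) : ZMod N).val : ℤ)) : ZMod N) = ((u : (ZMod N)ˣ) : ZMod N) := by
      push_cast; rw [ZMod.natCast_zmod_val]
    have hcop : IsCoprime (((u : (ZMod N)ˣ) : ZMod N).val : ℤ) (N : ℤ) :=
      Nat.isCoprime_iff_coprime.mpr (ZMod.val_coe_unit_coprime _)
    rcases monomial_or hn α hα A lam phi hlam hphi N hN hNlam hNphi _ hcop σ hsum l₀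
      (hS2 u hu _ hu1) with h | ⟨⟨g, hg, hP⟩, -⟩
    · exact absurd h hno
    · exact ⟨_, hu1, g, hg, hP⟩
  by_cases hall : ∀ l₀, HasMonomialSolution α A (fun j => lam j (σ (some j) l₀))
  · left
    have j₀ : Fin n := ⟨0, by omega⟩
    refine algebraic_of_monomial hα hlam (fun j => σ (some j)) j₀ ?_ hall
    rintro l l' hne ⟨z, hz⟩
    -- the relation `lam j₀ l - lam j₀ l'`
    let m : ExponentIndex n r → ℤ := Sum.elim (fun p => if p = (j₀, l) then 1 else
      if p = (j₀, l') then -1 else 0) (fun _ => 0)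
    have hm : m ∉ Lsig σ := by
      intro hm
      have h1 := mem_Lsig.mp hm j₀ ((σ (some j₀)).symm l)
      rw [Equiv.apply_symm_apply] at h1
      simp [m] at h1
    refine hgen m hm ?_ 1 one_pos (by simp only [Q']; omega) ⟨z, ?_⟩
    · intro i
      have h1 : (1 : ℤ) ≤ K' := by
        have h0 : 1 ≤ K' := Nat.le_add_left _ _
        exact_mod_cast h0
      rcases i with p | l''
      · simp only [m, Sum.elim_inl]
        split_ifs
        · simpa using h1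
        · simpa using h1
        · simp
      · simp [m]
    · rw [Nat.cast_one, one_mul, Fintype.sum_sum_type]
      simp only [m, Sum.elim_inl, Sum.elim_inr, Int.cast_zero, zero_mul, Finset.sum_const_zero,
        add_zero, hx]
      rw [← hz]
      have h2 : ∀ p : Fin n × Fin r, ((if p = (j₀, l) then 1 else if p = (j₀, l') then -1 else 0 : ℤ) : ℚ) *
          lam p.1 p.2 = (if p = (j₀, l) then lam j₀ l else 0) - (if p = (j₀, l') then lam j₀ l' else 0) := by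
        intro p
        by_cases h3 : p = (j₀, l)
        · have h4 : p ≠ (j₀, l') := by
            rw [h3]; intro h5; exact hne (Prod.ext_iff.mp h5).2
          rw [if_pos h3, if_pos h3, if_neg h4, h3]; simp
        · by_cases h4 : p = (j₀, l')
          · rw [if_neg h3, if_neg h3, if_pos h4, if_pos h4, h4]; simp
          · rw [if_neg h3, if_neg h3, if_neg h4, if_neg h4]; simp
      rw [Finset.sum_congr rfl fun p _ => h2 p, Finset.sum_sub_distrib]
      simp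
  · right; left
    push Not at hall
    obtain ⟨l₀, hl₀⟩ := hall
    exact hII _ hmin ((hmon l₀).resolve_left hl₀)

end Pool.Agent.Y227.UD
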