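import Pool.Agent.W432.TC.Equi

set_option autoImplicit false

/-!
A positive proportion of the Galois orbit of a torsion point comes close to every point of its
coset, as soon as the point avoids finitely many proper sub-cosets.  The proportion does not depend
on the order of the point.
-/

open scoped ComplexConjugate

namespace Pool.Agent.Y227.UD

open Pool.Agent.W432.TC

lemma norm_G_le_nat (K : ℕ) (t : ℝ) : ‖G K t‖ ≤ K := by
  unfold G
  calc ‖∑ j ∈ Finset.range K, ee (j * t)‖ ≤ ∑ j ∈ Finset.range K, ‖ee (j * t)‖ := norm_sum_le _ _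
    _ = K := by
      rw [Finset.sum_congr rfl fun j _ => norm_ee _]
      simp

variable {I : Type*} [Fintype I] [DecidableEq I]

omit [DecidableEq I] in
lemma P_le_pow (K : ℕ) (t : I → ℝ) : P K t ≤ ((K : ℝ) ^ 2) ^ Fintype.card I := by
  unfold P
  calc ∏ i, ‖G K (t i)‖ ^ 2 ≤ ∏ _i : I, (K : ℝ) ^ 2 :=
        Finset.prod_le_prod (fun _ _ => by positivity) fun i _ =>
          pow_le_pow_left₀ (norm_nonneg _) (norm_G_le_nat K (t i)) 2
    _ = _ := by rw [Finset.prod_const, Finset.card_univ]

/-- A positive proportion, independent of the denominator, of the Galois orbit of a torsion point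
comes close to every point of its coset, as soon as the point avoids finitely many proper
sub-cosets. -/
theorem equidist (L : AddSubgroup (I → ℤ)) (x₀ : I → ℚ) (y : I → ℝ)
    (hy : ∀ m ∈ L, ∃ z : ℤ, ∑ i, (m i : ℝ) * (y i - x₀ i) = z) (δ : ℝ) (hδ : 0 < δ) :
    ∃ (K Q : ℕ) (ε : ℝ), 0 < ε ∧ ∀ x : I → ℚ,
      (∀ m ∈ L, ∃ z : ℤ, ∑ i, (m i : ℚ) * (x i - x₀ i) = z) →
      (∀ m ∉ L, (∀ i, |m i| ≤ K) → ∀ q : ℕ, 0 < q → q ≤ Q →
        ¬ ∃ z : ℤ, (q : ℚ) * ∑ i, (m i : ℚ) * x i = z) →
      ∀ N : ℕ, 0 < N → (∀ i, ∃ z : ℤ, (N : ℚ) * x i = z) →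
        ∃ S : Finset (ZMod N)ˣ, ε * N.totient ≤ S.card ∧
          ∀ u ∈ S, ∀ a : ℤ, ((a : ℤ) : ZMod N) = ((u : (ZMod N)ˣ) : ZMod N) →
            ∀ i, ∃ z : ℤ, |(a : ℝ) * x i - y i - z| < δ := by
  classical
  -- a common denominator of `x₀`
  let c : ℕ := ∏ i, (x₀ i).den
  have hc : 0 < c := Finset.prod_pos fun i _ => (x₀ i).den_pos
  have hcx : ∀ i, ∃ z : ℤ, (c : ℚ) * x₀ i = z := by
    intro i
    obtain ⟨e, he⟩ : (x₀ i).den ∣ c := Finset.dvd_prod_of_mem _ (Finset.mem_univ i)
    refine ⟨e * (x₀ i).num, ?_⟩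
    rw [he]
    push_cast
    have := Rat.mul_den_eq_num (x₀ i)
    linear_combination (e : ℚ) * this
  -- the size of the box
  set δ₁ : ℝ := 4 * δ with hδ₁
  have hδ₁0 : 0 < δ₁ := by positivity
  obtain ⟨K, hK⟩ := exists_nat_gt (max 1 (8 * Fintype.card I / δ₁ ^ 2))
  have hK1 : 1 < (K : ℝ) := lt_of_le_of_lt (le_max_left _ _) hK
  have hK2 : 8 * Fintype.card I / δ₁ ^ 2 < (K : ℝ) := lt_of_le_of_lt (le_max_right _ _) hK
  have hK0 : 0 < K := by
    have : (0 : ℝ) < K := by linarith
    exact_mod_cast this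
  set M : ℝ := ((Fintype.piFinset (Dfull I K)).card : ℝ) with hM
  have hM0 : 0 ≤ M := Nat.cast_nonneg _
  set η : ℝ := 1 / (3 * (M + 1)) with hη
  have hη0 : 0 < η := by positivity
  obtain ⟨Q, hQ⟩ := exists_small c hc η hη0
  set B : ℝ := ((K : ℝ) ^ 2) ^ Fintype.card I with hB
  have hB0 : 0 < B := by have : (0 : ℝ) < K := by linarith
                         positivity
  have hcφ : (0 : ℝ) < c.totient := by exact_mod_cast Nat.totient_pos.mpr hc
  refine ⟨K, Q, 1 / (2 * (M + 1) * B * c.totient), by positivity, fun x hx hx2 N₀ hN₀ hN₀x => ?_⟩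
  let N : ℕ := N₀ * c
  have hN : 0 < N := Nat.mul_pos hN₀ hc
  have : NeZero N := ⟨hN.ne'⟩
  have : NeZero N₀ := ⟨hN₀.ne'⟩
  have hcN : c ∣ N := Dvd.intro_left N₀ rfl
  have hN₀N : N₀ ∣ N := Dvd.intro _ rfl
  have hNx : ∀ i, ∃ z : ℤ, (N : ℚ) * x i = z := by
    intro i
    obtain ⟨z, hz⟩ := hN₀x i
    refine ⟨c * z, ?_⟩
    simp only [N]
    push_cast
    linear_combination (c : ℚ) * hz
  choose X hX using hNx
  let U := UU N hcN
  -- the integer attached to a unit
  let av : U → ℤ := fun u => (((u : (ZMod N)ˣ) : ZMod N).val : ℤ)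
  have hav1 : ∀ u : U, (c : ℤ) ∣ av u - 1 := by
    intro u
    rw [← ZMod.intCast_zmod_eq_zero_iff_dvd]
    have h1 : ZMod.unitsMap hcN (u : (ZMod N)ˣ) = 1 := u.2
    have h2 := congrArg (fun v : (ZMod c)ˣ => (v : ZMod c)) h1
    simp only [ZMod.unitsMap_val, Units.val_one] at h2
    simp only [av]
    push_cast
    rw [ZMod.natCast_val, h2, sub_self]
  -- the good units
  let Gd : Finset U := Finset.univ.filter fun u : U =>
    ∀ i, ‖ee ((av u : ℝ) * x i - y i) - 1‖ < δ₁
  have hbad : ∀ u : U, u ∉ Gd → ∃ i, δ₁ ≤ ‖ee ((av u : ℝ) * x i - y i) - 1‖ := by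
    intro u hu
    by_contra hno
    push Not at hno
    exact hu (Finset.mem_filter.mpr ⟨Finset.mem_univ _, hno⟩)
  -- averages
  have havg : ∀ D : I → Finset (ℕ × ℕ), (∀ i, D i ⊆ Dfull I K i) →
      ‖∑ u : U, ∑ h ∈ Fintype.piFinset D, ee (∑ i, (dif h i : ℝ) * ((av u : ℝ) * x i - y i)) -
        (Fintype.card U : ℂ) * ((Fintype.piFinset D).filter (fun h => dif h ∈ L)).card‖ ≤
      η * Fintype.card U * M := by
    intro D hD
    rw [Finset.sum_comm]
    have h1 : (Fintype.card U : ℂ) * ((Fintype.piFinset D).filter (fun h => dif h ∈ L)).card =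
        ∑ h ∈ Fintype.piFinset D, if dif h ∈ L then (Fintype.card U : ℂ) else 0 := by
      rw [← Finset.sum_filter, Finset.sum_const, nsmul_eq_mul, mul_comm]
    rw [h1, ← Finset.sum_sub_distrib]
    have h2 : ∀ h ∈ Fintype.piFinset D,
        ‖∑ u : U, ee (∑ i, (dif h i : ℝ) * ((av u : ℝ) * x i - y i)) -
          (if dif h ∈ L then (Fintype.card U : ℂ) else 0)‖ ≤ η * Fintype.card U := by
      intro h hh
      by_cases hL : dif h ∈ L
      · rw [if_pos hL]
        have h3 : ∀ u : U, ee (∑ i, (dif h i : ℝ) * ((av u : ℝ) * x i - y i)) = 1 := by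
          intro u
          obtain ⟨z₁, hz₁⟩ := hx _ hL
          obtain ⟨z₂, hz₂⟩ := hy _ hL
          obtain ⟨e, he⟩ := hav1 u
          choose w hw using hcx
          have hz₁' : ∑ i, (dif h i : ℝ) * ((x i : ℝ) - x₀ i) = z₁ := by
            have := congrArg (fun q : ℚ => (q : ℝ)) hz₁
            push_cast at this
            exact this
          have hw' : ∀ i, (c : ℝ) * x₀ i = w i := fun i => by
            have := congrArg (fun q : ℚ => (q : ℝ)) (hw i)
            push_cast at this
            exact this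
          have he' : (av u : ℝ) - 1 = c * e := by exact_mod_cast he
          have h4 : ∑ i, (dif h i : ℝ) * ((av u : ℝ) * x i - y i) =
              ((av u * z₁ - z₂ + e * ∑ i, dif h i * w i : ℤ) : ℝ) := by
            push_cast
            have h5 : ∀ i, (dif h i : ℝ) * ((av u : ℝ) * x i - y i) =
                (av u : ℝ) * ((dif h i : ℝ) * ((x i : ℝ) - x₀ i)) -
                  (dif h i : ℝ) * (y i - x₀ i) + (e : ℝ) * ((dif h i : ℝ) * w i) := by
              intro i
              rw [← hw' i]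
              linear_combination (dif h i : ℝ) * (x₀ i : ℝ) * he'
            rw [Finset.sum_congr rfl fun i _ => h5 i, Finset.sum_add_distrib,
              Finset.sum_sub_distrib, ← Finset.mul_sum, ← Finset.mul_sum, hz₁', hz₂]
          rw [h4, ee_int]
        rw [Finset.sum_congr rfl fun u _ => h3 u, Finset.sum_const, nsmul_eq_mul, mul_one,
          Finset.card_univ, sub_self, norm_zero]
        positivity
      · rw [if_neg hL, sub_zero]
        -- the frequency
        let k : ℤ := ∑ i, dif h i * X i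
        have hk : ∀ u : U, ee (∑ i, (dif h i : ℝ) * ((av u : ℝ) * x i - y i)) =
            ZMod.stdAddChar (((u : (ZMod N)ˣ) : ZMod N) * (k : ZMod N)) *
              ee (-∑ i, (dif h i : ℝ) * y i) := by
          intro u
          have hX' : ∀ i, (x i : ℝ) = (X i : ℝ) / N := fun i => by
            have := congrArg (fun q : ℚ => (q : ℝ)) (hX i)
            push_cast at this
            rw [← this]
            have : (N : ℝ) ≠ 0 := by exact_mod_cast hN.ne'
            field_simp
          have h3 : ∑ i, (dif h i : ℝ) * ((av u : ℝ) * x i - y i) =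
              ((av u * k : ℤ) : ℝ) / N + -∑ i, (dif h i : ℝ) * y i := by
            simp only [k]
            push_cast
            rw [Finset.mul_sum, Finset.sum_div, ← Finset.sum_neg_distrib, ← Finset.sum_add_distrib]
            refine Finset.sum_congr rfl fun i _ => ?_
            rw [hX' i]; ring
          rw [h3, ee_add]
          congr 1
          have h4 : ((u : (ZMod N)ˣ) : ZMod N) * (k : ZMod N) = ((av u * k : ℤ) : ZMod N) := by
            simp only [av]
            push_cast
            rw [ZMod.natCast_zmod_val]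
          rw [h4, ZMod.stdAddChar_coe]
          unfold ee
          congr 1
          push_cast
          ring
        rw [Finset.sum_congr rfl fun u _ => hk u, ← Finset.sum_mul, norm_mul, norm_ee, mul_one]
        refine hQ N hcN (k : ZMod N) ?_
        by_contra hq
        push Not at hq
        refine hx2 (dif h) hL ?_ (addOrderOf (k : ZMod N)) (addOrderOf_pos _) hq ?_
        · intro i
          have h3 := hD i (Fintype.mem_piFinset.mp hh i)
          simp only [Dfull, Finset.mem_product, Finset.mem_range] at h3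
          unfold dif
          rw [abs_le]
          constructor <;> omega
        · have h3 : (addOrderOf (k : ZMod N)) • (k : ZMod N) = 0 := addOrderOf_nsmul_eq_zero _
          rw [nsmul_eq_mul] at h3
          have h4 : (((addOrderOf (k : ZMod N) : ℤ) * k : ℤ) : ZMod N) = 0 := by
            push_cast; exact h3
          rw [ZMod.intCast_zmod_eq_zero_iff_dvd] at h4
          obtain ⟨z, hz⟩ := h4
          refine ⟨z, ?_⟩
          have h5 : (N : ℚ) * ∑ i, (dif h i : ℚ) * x i = k := by
            simp only [k]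
            push_cast
            rw [Finset.mul_sum]
            refine Finset.sum_congr rfl fun i _ => ?_
            rw [← hX i]; ring
          have h6 : ((addOrderOf (k : ZMod N) : ℕ) : ℚ) * k = N * z := by exact_mod_cast hz
          have hN' : (N : ℚ) ≠ 0 := by exact_mod_cast hN.ne'
          apply mul_left_cancel₀ hN'
          rw [← h6, ← h5]
          ring
    calc _ ≤ ∑ h ∈ Fintype.piFinset D, ‖∑ u : U, ee (∑ i, (dif h i : ℝ) * ((av u : ℝ) * x i - y i)) -
          (if dif h ∈ L then (Fintype.card U : ℂ) else 0)‖ := norm_sum_le _ _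
      _ ≤ ∑ h ∈ Fintype.piFinset D, η * Fintype.card U := Finset.sum_le_sum h2
      _ = (Fintype.piFinset D).card * (η * Fintype.card U) := by
          rw [Finset.sum_const, nsmul_eq_mul]
      _ ≤ M * (η * Fintype.card U) := by
          refine mul_le_mul_of_nonneg_right ?_ (by positivity)
          rw [hM]
          exact_mod_cast Finset.card_le_card (Fintype.piFinset_subset D (Dfull I K) hD)
      _ = _ := by ring
  set F : ℝ := (Fintype.card U : ℝ) with hF
  have hFpos : 0 < F := by
    rw [hF]; exact_mod_cast Fintype.card_pos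
  set s : ℝ := (((Fintype.piFinset (Dfull I K)).filter (fun h => dif h ∈ L)).card : ℝ) with hs
  have hs1 : 1 ≤ s := by
    have : 0 < ((Fintype.piFinset (Dfull I K)).filter (fun h => dif h ∈ L)).card := by
      apply Finset.card_pos.mpr
      refine ⟨fun _ => (0, 0), ?_⟩
      rw [Finset.mem_filter, Fintype.mem_piFinset]
      refine ⟨fun i => ?_, ?_⟩
      · simp only [Dfull, Finset.mem_product, Finset.mem_range]
        exact ⟨hK0, hK0⟩
      · have : dif (fun _ : I => ((0, 0) : ℕ × ℕ)) = 0 := by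
          ext1 i; simp [dif]
        rw [this]; exact L.zero_mem
    rw [hs]
    exact_mod_cast this
  -- real forms
  have hfull : F * s - η * F * M ≤ ∑ u : U, P K (fun i => (av u : ℝ) * x i - y i) := by
    have h1 := havg (Dfull I K) fun _ => subset_rfl
    have h2 : ((∑ u : U, P K (fun i => (av u : ℝ) * x i - y i) : ℝ) : ℂ) =
        ∑ u : U, ∑ h ∈ Fintype.piFinset (Dfull I K),
          ee (∑ i, (dif h i : ℝ) * ((av u : ℝ) * x i - y i)) := by
      rw [Complex.ofReal_sum]
      exact Finset.sum_congr rfl fun u _ => P_eq K _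
    rw [← h2] at h1
    have h3 : ‖(((∑ u : U, P K (fun i => (av u : ℝ) * x i - y i)) - F * s : ℝ) : ℂ)‖ ≤
        η * F * M := by
      rw [hs, hF]; push_cast; push_cast at h1; exact h1
    rw [Complex.norm_real, Real.norm_eq_abs, abs_le] at h3
    linarith [h3.1]
  have hdiag : ∀ i₀, ∑ u : U, P' K i₀ (fun i => (av u : ℝ) * x i - y i) ≤ F * s + η * F * M := by
    intro i₀
    have h1 := havg (Ddiag K i₀) (Ddiag_sub K i₀)
    have h2 : ((∑ u : U, P' K i₀ (fun i => (av u : ℝ) * x i - y i) : ℝ) : ℂ) =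
        ∑ u : U, ∑ h ∈ Fintype.piFinset (Ddiag K i₀),
          ee (∑ i, (dif h i : ℝ) * ((av u : ℝ) * x i - y i)) := by
      rw [Complex.ofReal_sum]
      exact Finset.sum_congr rfl fun u _ => P'_eq K i₀ _
    rw [← h2] at h1
    set s' : ℝ := (((Fintype.piFinset (Ddiag K i₀)).filter (fun h => dif h ∈ L)).card : ℝ) with hs'
    have h3 : ‖(((∑ u : U, P' K i₀ (fun i => (av u : ℝ) * x i - y i)) - F * s' : ℝ) : ℂ)‖ ≤
        η * F * M := by
      rw [hs', hF]; push_cast; push_cast at h1; exact h1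
    rw [Complex.norm_real, Real.norm_eq_abs, abs_le] at h3
    have h4 : s' ≤ s := by
      rw [hs', hs]
      exact_mod_cast Finset.card_le_card (Finset.filter_subset_filter _
        (Fintype.piFinset_subset _ _ (Ddiag_sub K i₀)))
    nlinarith [h3.2, mul_le_mul_of_nonneg_left h4 hFpos.le]
  have hPle : ∀ u : U, P K (fun i => (av u : ℝ) * x i - y i) ≤
      4 / (δ₁ ^ 2 * K) * ∑ i₀, P' K i₀ (fun i => (av u : ℝ) * x i - y i) +
        (if u ∈ Gd then B else 0) := by
    intro u
    by_cases hu : u ∈ Gd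
    · rw [if_pos hu]
      refine (P_le_pow K _).trans (le_add_of_nonneg_left ?_)
      exact mul_nonneg (by positivity) (Finset.sum_nonneg fun i _ => P'_nonneg K i _)
    · rw [if_neg hu, add_zero]
      obtain ⟨i₀, hi₀⟩ := hbad u hu
      refine (P_le hK0 hδ₁0 (t := fun i => (av u : ℝ) * x i - y i) hi₀).trans ?_
      refine mul_le_mul_of_nonneg_left ?_ (by positivity)
      exact Finset.single_le_sum (f := fun i₀ => P' K i₀ (fun i => (av u : ℝ) * x i - y i))
        (fun i _ => P'_nonneg K i _) (Finset.mem_univ i₀)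
  have hsum : ∑ u : U, P K (fun i => (av u : ℝ) * x i - y i) ≤
      4 / (δ₁ ^ 2 * K) * (Fintype.card I * (F * s + η * F * M)) + Gd.card * B := by
    calc _ ≤ ∑ u : U, (4 / (δ₁ ^ 2 * K) * ∑ i₀, P' K i₀ (fun i => (av u : ℝ) * x i - y i) +
            (if u ∈ Gd then B else 0)) := Finset.sum_le_sum fun u _ => hPle u
      _ = 4 / (δ₁ ^ 2 * K) * ∑ i₀, ∑ u : U, P' K i₀ (fun i => (av u : ℝ) * x i - y i) +
            Gd.card * B := by
          rw [Finset.sum_add_distrib, ← Finset.mul_sum, Finset.sum_comm, ← Finset.sum_filter]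
          congr 1
          rw [Finset.sum_const, nsmul_eq_mul]
          congr 2
          simp
      _ ≤ 4 / (δ₁ ^ 2 * K) * ∑ i₀ : I, (F * s + η * F * M) + Gd.card * B := by
          refine add_le_add (mul_le_mul_of_nonneg_left
            (Finset.sum_le_sum fun i₀ _ => hdiag i₀) (by positivity)) le_rfl
      _ = _ := by rw [Finset.sum_const, nsmul_eq_mul, Finset.card_univ]
  have hKR : (0 : ℝ) < K := by linarith
  have h8 : 4 / (δ₁ ^ 2 * K) * Fintype.card I ≤ 1 / 2 := by
    rw [div_lt_iff₀ (by positivity)] at hK2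
    rw [div_mul_eq_mul_div, div_le_iff₀ (by positivity)]
    nlinarith
  have h9 : F * s - η * F * M ≤ 1 / 2 * (F * s + η * F * M) + Gd.card * B := by
    refine hfull.trans (hsum.trans ?_)
    rw [← mul_assoc]
    exact add_le_add (mul_le_mul_of_nonneg_right h8 (by positivity)) le_rfl
  have h10 : F / (2 * (M + 1)) ≤ Gd.card * B := by
    have h11 : 3 * (η * M) = 1 - 1 / (M + 1) := by
      rw [hη]; field_simp; ring
    have h12 : F * (s - 3 * (η * M)) ≤ 2 * (Gd.card * B) := by nlinarith
    have h13 : 1 / (M + 1) ≤ s - 3 * (η * M) := by rw [h11]; linarith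
    have h14 := mul_le_mul_of_nonneg_left h13 hFpos.le
    have h15 : F / (2 * (M + 1)) = F * (1 / (M + 1)) / 2 := by field_simp
    rw [h15]
    linarith
  -- the classes modulo `N₀`
  let π : U → (ZMod N₀)ˣ := fun u => ZMod.unitsMap hN₀N (u : (ZMod N)ˣ)
  have hfib : Gd.card ≤ Fintype.card (UU N hN₀N) * (Gd.image π).card := by
    refine Finset.card_le_mul_card_image Gd _ fun v hv => ?_
    obtain ⟨u₀, -, rfl⟩ := Finset.mem_image.mp hv
    rw [← Finset.card_univ]
    refine Finset.card_le_card_of_injOn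
      (fun u => if hu : ((u₀ : (ZMod N)ˣ)⁻¹ * (u : (ZMod N)ˣ)) ∈ UU N hN₀N then
        ⟨(u₀ : (ZMod N)ˣ)⁻¹ * (u : (ZMod N)ˣ), hu⟩ else 1)
      (fun _ _ => Finset.mem_coe.mpr (Finset.mem_univ _)) ?_
    have hmem : ∀ u ∈ Gd.filter (fun u => π u = π u₀),
        ((u₀ : (ZMod N)ˣ)⁻¹ * (u : (ZMod N)ˣ)) ∈ UU N hN₀N := by
      intro u hu
      have h1 : ZMod.unitsMap hN₀N (u : (ZMod N)ˣ) = ZMod.unitsMap hN₀N (u₀ : (ZMod N)ˣ) :=
        (Finset.mem_filter.mp hu).2
      rw [UU, MonoidHom.mem_ker, map_mul, map_inv, h1, inv_mul_cancel]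
    intro u hu v hv huv
    have hu' := hmem u hu
    have hv' := hmem v hv
    simp only [dif_pos hu', dif_pos hv'] at huv
    have h5 := congrArg (fun x : UU N hN₀N => (x : (ZMod N)ˣ)) huv
    simp only [mul_right_inj] at h5
    exact Subtype.ext h5
  refine ⟨Gd.image π, ?_, ?_⟩
  · have h1 : F * c.totient = N.totient := by
      rw [hF]; exact_mod_cast card_UU hc hcN
    have h2 : (Fintype.card (UU N hN₀N) : ℝ) * N₀.totient = N.totient := by
      exact_mod_cast card_UU hN₀ hN₀N
    have h3 : (Gd.card : ℝ) ≤ Fintype.card (UU N hN₀N) * (Gd.image π).card := by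
      exact_mod_cast hfib
    set k₀ : ℝ := (Fintype.card (UU N hN₀N) : ℝ) with hk₀
    have hk0 : 0 < k₀ := by rw [hk₀]; exact_mod_cast Fintype.card_pos
    have h4 : F / (2 * (M + 1)) ≤ k₀ * (Gd.image π).card * B :=
      h10.trans (mul_le_mul_of_nonneg_right h3 hB0.le)
    have h5 : F = k₀ * N₀.totient / c.totient := by
      rw [eq_div_iff hcφ.ne', h1, h2]
    rw [h5] at h4
    have h6 : k₀ * N₀.totient / c.totient / (2 * (M + 1)) =
        k₀ * B * (1 / (2 * (M + 1) * B * c.totient) * N₀.totient) := by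
      field_simp
    rw [h6, show k₀ * ((Gd.image π).card : ℝ) * B = k₀ * B * ((Gd.image π).card : ℝ) by ring] at h4
    exact le_of_mul_le_mul_left h4 (by positivity)
  · intro v hv a hav i
    obtain ⟨u, hu, rfl⟩ := Finset.mem_image.mp hv
    have h1 := (Finset.mem_filter.mp hu).2 i
    obtain ⟨z, hz⟩ := near h1
    obtain ⟨w, hw⟩ := hN₀x i
    have h2 : ((a - av u : ℤ) : ZMod N₀) = 0 := by
      have h3 : (((π u : (ZMod N₀)ˣ) : ZMod N₀)) = ((av u : ℤ) : ZMod N₀) := by
        simp only [π, av, ZMod.unitsMap_val]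
        push_cast
        rw [ZMod.natCast_val]
      push_cast
      rw [hav, h3, sub_self]
    rw [ZMod.intCast_zmod_eq_zero_iff_dvd] at h2
    obtain ⟨e, he⟩ := h2
    refine ⟨z + e * w, ?_⟩
    have he' : (a : ℝ) = av u + N₀ * e := by
      have : a = av u + N₀ * e := by linarith
      exact_mod_cast this
    have hw' : (N₀ : ℝ) * x i = w := by
      have := congrArg (fun q : ℚ => (q : ℝ)) hw
      push_cast at this
      exact this
    have h4 : (a : ℝ) * x i - y i - ((z + e * w : ℤ) : ℝ) = (av u : ℝ) * x i - y i - z := by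
      push_cast
      rw [he', ← hw']
      ring
    rw [h4]
    exact hz

end Pool.Agent.Y227.UD
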