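import Pool.Agent.Y227.UD.Equi
import Pool.Agent.W432.TC.Ultra

set_option autoImplicit false

/-!
A gap theorem: the proportion of the Galois orbit of a torsion point which is in a given open set
is zero or at least a positive constant, which depends only on the open set.
-/

namespace Pool.Agent.Y227.UD

open Pool.Agent.W432.TC

variable {I : Type*} [Fintype I] [DecidableEq I]

/-- The gap theorem for torsion points in the open set. -/
theorem gap_one (τ : I → ℤ) (W : Set (I → ℝ))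
    (hW : ∀ y ∈ W, ∃ δ : ℝ, 0 < δ ∧ ∀ x : I → ℝ, (∃ z : ℤ, ∑ i, (τ i : ℝ) * x i = z) →
      (∀ i, ∃ z : ℤ, |x i - y i - z| < δ) → x ∈ W) :
    ∃ ε : ℝ, 0 < ε ∧ ∀ x : I → ℚ, (∃ z : ℤ, ∑ i, (τ i : ℚ) * x i = z) →
      ∀ N : ℕ, 0 < N → (∀ i, ∃ z : ℤ, (N : ℚ) * x i = z) → (fun i => (x i : ℝ)) ∈ W →
        ∃ S : Finset (ZMod N)ˣ, ε * N.totient ≤ S.card ∧
          ∀ u ∈ S, ∀ a : ℤ, ((a : ℤ) : ZMod N) = ((u : (ZMod N)ˣ) : ZMod N) →
            (fun i => (a : ℝ) * x i) ∈ W := by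
  classical
  by_contra hcon
  push Not at hcon
  choose X hX Nn hNn hNX hXW hXS using fun k : ℕ => hcon (1 / ((k : ℝ) + 1)) (by positivity)
  set F : Ultrafilter ℕ := Filter.hyperfilter ℕ with hFdef
  have hbig : ∀ ε : ℝ, 0 < ε → {k : ℕ | 1 / ((k : ℝ) + 1) ≤ ε} ∈ F := by
    intro ε hε
    obtain ⟨k₀, hk₀⟩ := exists_nat_gt (1 / ε)
    have h1 : {k : ℕ | 1 / ((k : ℝ) + 1) ≤ ε}ᶜ.Finite := by
      refine (Set.finite_Iio k₀).subset fun k hk => ?_
      rw [Set.mem_Iio]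
      by_contra hle
      push Not at hle
      apply hk
      have h2 : (k₀ : ℝ) ≤ k := by exact_mod_cast hle
      show 1 / ((k : ℝ) + 1) ≤ ε
      rw [div_le_iff₀ (by positivity)]
      rw [div_lt_iff₀ hε] at hk₀
      nlinarith
    have h2 := Set.Finite.compl_mem_hyperfilter h1
    rw [compl_compl] at h2
    exact h2
  -- a finite union of residue conditions
  have hfin : ∀ (m : I → ℤ) (d : ℕ) (c : ℚ), 0 < d →
      {k : ℕ | ∃ z : ℤ, (d : ℚ) * ∑ i, (m i : ℚ) * X k i - c = z} ∈ F →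
      ∃ c' : ℚ, {k : ℕ | ∃ z : ℤ, ∑ i, (m i : ℚ) * X k i - c' = z} ∈ F := by
    intro m d c hd h
    have hd' : (d : ℚ) ≠ 0 := by exact_mod_cast hd.ne'
    have hsub : {k : ℕ | ∃ z : ℤ, (d : ℚ) * ∑ i, (m i : ℚ) * X k i - c = z} ⊆
        ⋃ r ∈ Set.Iio d, {k : ℕ | ∃ z : ℤ, ∑ i, (m i : ℚ) * X k i - (c + r) / d = z} := by
      rintro x ⟨z, hz⟩
      have hd0 : (d : ℤ) ≠ 0 := by exact_mod_cast hd.ne'
      refine Set.mem_biUnion (x := (z % d).toNat) ?_ ?_
      · rw [Set.mem_Iio]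
        have h1 := Int.emod_nonneg z hd0
        have h2 := Int.emod_lt_of_pos z (by exact_mod_cast hd : (0 : ℤ) < d)
        omega
      · refine ⟨z / d, ?_⟩
        have h1 := Int.emod_nonneg z hd0
        have h2 : (((z % d).toNat : ℕ) : ℤ) = z % d := Int.toNat_of_nonneg h1
        have h3 : (((z % d).toNat : ℕ) : ℚ) = ((z % d : ℤ) : ℚ) := by exact_mod_cast h2
        have h4 : (z : ℚ) = d * ((z / d : ℤ) : ℚ) + ((z % d : ℤ) : ℚ) := by
          exact_mod_cast (Int.mul_ediv_add_emod z d).symm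
        rw [h3]
        field_simp
        linear_combination hz + h4
    have h2 := Filter.mem_of_superset h hsub
    rw [Ultrafilter.mem_coe, Ultrafilter.finite_biUnion_mem_iff (Set.finite_Iio d)] at h2
    obtain ⟨r, -, hr⟩ := h2
    exact ⟨_, hr⟩
  -- the relations
  let L : AddSubgroup (I → ℤ) :=
    { carrier := {m | ∃ c : ℚ, {k : ℕ | ∃ z : ℤ, ∑ i, (m i : ℚ) * X k i - c = z} ∈ F}
      zero_mem' := ⟨0, Filter.mem_of_superset Filter.univ_mem fun x _ => ⟨0, by simp⟩⟩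
      add_mem' := by
        rintro m m' ⟨c, hc⟩ ⟨c', hc'⟩
        refine ⟨c + c', Filter.mem_of_superset (Filter.inter_mem hc hc') ?_⟩
        rintro x ⟨⟨z, hz⟩, ⟨z', hz'⟩⟩
        refine ⟨z + z', ?_⟩
        simp only [Pi.add_apply]
        push_cast
        rw [← hz, ← hz']
        simp only [add_mul, Finset.sum_add_distrib]
        ring
      neg_mem' := by
        rintro m ⟨c, hc⟩
        refine ⟨-c, Filter.mem_of_superset hc ?_⟩
        rintro x ⟨z, hz⟩
        refine ⟨-z, ?_⟩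
        simp only [Pi.neg_apply]
        push_cast
        rw [← hz]
        simp only [neg_mul, Finset.sum_neg_distrib]
        ring }
  have hLmem : ∀ m, m ∈ L ↔
      ∃ c : ℚ, {k : ℕ | ∃ z : ℤ, ∑ i, (m i : ℚ) * X k i - c = z} ∈ F := fun m => Iff.rfl
  -- finitely many generators
  obtain ⟨S, hS⟩ := (isNoetherian_def.mp (inferInstance : IsNoetherian ℤ (I → ℤ)))
    (AddSubgroup.toIntSubmodule L)
  have hSL : ∀ m ∈ S, m ∈ L := by
    intro m hm
    have : m ∈ AddSubgroup.toIntSubmodule L := by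
      rw [← hS]; exact Submodule.subset_span hm
    exact this
  choose! c hc using fun m (hm : m ∈ L) => (hLmem m).mp hm
  have hSF : {k : ℕ | ∀ m ∈ S, ∃ z : ℤ, ∑ i, (m i : ℚ) * X k i - c m = z} ∈ F := by
    have : {k : ℕ | ∀ m ∈ S, ∃ z : ℤ, ∑ i, (m i : ℚ) * X k i - c m = z} =
        ⋂ m ∈ S, {k : ℕ | ∃ z : ℤ, ∑ i, (m i : ℚ) * X k i - c m = z} := by
      ext x; simp
    rw [this]
    exact (Filter.biInter_finset_mem S).mpr fun m hm => hc m (hSL m hm)
  obtain ⟨k₀, hk₀⟩ := F.nonempty_of_mem hSF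
  have hcos : {k : ℕ | ∀ m ∈ L, ∃ z : ℤ, ∑ i, (m i : ℚ) * (X k i - X k₀ i) = z} ∈ F := by
    refine Filter.mem_of_superset hSF fun x hx => ?_
    intro m hm
    have hm' : m ∈ Submodule.span ℤ (S : Set (I → ℤ)) := by
      rw [hS]; exact hm
    induction hm' using Submodule.span_induction with
    | mem m hmS =>
      obtain ⟨z, hz⟩ := hx m hmS
      obtain ⟨z', hz'⟩ := hk₀ m hmS
      refine ⟨z - z', ?_⟩
      push_cast
      rw [← hz, ← hz']
      simp only [mul_sub, Finset.sum_sub_distrib]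
      ring
    | zero => exact ⟨0, by simp⟩
    | add m m' h1 h2 ih1 ih2 =>
      have e1 : m ∈ L := by rw [hS] at h1; exact h1
      have e2 : m' ∈ L := by rw [hS] at h2; exact h2
      obtain ⟨z, hz⟩ := ih1 e1
      obtain ⟨z', hz'⟩ := ih2 e2
      refine ⟨z + z', ?_⟩
      push_cast
      rw [← hz, ← hz', ← Finset.sum_add_distrib]
      refine Finset.sum_congr rfl fun i _ => ?_
      simp only [Pi.add_apply]
      push_cast
      ring
    | smul a m h1 ih1 =>
      have e1 : m ∈ L := by rw [hS] at h1; exact h1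
      obtain ⟨z, hz⟩ := ih1 e1
      refine ⟨a * z, ?_⟩
      push_cast
      rw [← hz, Finset.mul_sum]
      refine Finset.sum_congr rfl fun i _ => ?_
      simp only [Pi.smul_apply, smul_eq_mul]
      push_cast
      ring
  obtain ⟨δ, hδ, hball⟩ := hW _ (hXW k₀)
  obtain ⟨K, Q, ε, hε, hKQ⟩ := equidist L (X k₀) (fun i => (X k₀ i : ℝ))
    (fun m _ => ⟨0, by simp⟩) δ hδ
  have hgen : {k : ℕ | ∀ m ∉ L, (∀ i, |m i| ≤ K) → ∀ q : ℕ, 0 < q → q ≤ Q →
      ¬ ∃ z : ℤ, (q : ℚ) * ∑ i, (m i : ℚ) * X k i = z} ∈ F := by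
    have hbox : (Set.univ.pi fun _ : I => Set.Icc (-(K : ℤ)) K).Finite :=
      Set.Finite.pi fun _ => Set.finite_Icc _ _
    have hsub : (⋂ m ∈ (Set.univ.pi fun _ : I => Set.Icc (-(K : ℤ)) K), ⋂ q ∈ Set.Iic Q,
        {k : ℕ | m ∉ L → 0 < q → ¬ ∃ z : ℤ, (q : ℚ) * ∑ i, (m i : ℚ) * X k i = z}) ⊆
        {k : ℕ | ∀ m ∉ L, (∀ i, |m i| ≤ K) → ∀ q : ℕ, 0 < q → q ≤ Q →
          ¬ ∃ z : ℤ, (q : ℚ) * ∑ i, (m i : ℚ) * X k i = z} := by
      intro x hx m hm hmK q hq hqQ
      rw [Set.mem_iInter₂] at hx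
      have h1 := hx m (fun i _ => abs_le.mp (hmK i))
      rw [Set.mem_iInter₂] at h1
      exact h1 q hqQ hm hq
    refine Filter.mem_of_superset ?_ hsub
    refine (Filter.biInter_mem hbox).mpr fun m _ => ?_
    refine (Filter.biInter_mem (Set.finite_Iic Q)).mpr fun q _ => ?_
    by_cases hm : m ∈ L
    · exact Filter.mem_of_superset Filter.univ_mem fun x _ h => absurd hm h
    · rcases Nat.eq_zero_or_pos q with hq | hq
      · exact Filter.mem_of_superset Filter.univ_mem fun x _ _ h => absurd hq h.ne'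
      · have h1 : {k : ℕ | ∃ z : ℤ, (q : ℚ) * ∑ i, (m i : ℚ) * X k i - 0 = z} ∉ F :=
          fun h => hm (hfin m q 0 hq h)
        have h2 := Ultrafilter.compl_mem_iff_notMem.mpr h1
        refine Filter.mem_of_superset h2 fun x hx _ _ hz => hx ?_
        obtain ⟨z, hz⟩ := hz
        exact ⟨z, by rw [sub_zero]; exact hz⟩
  obtain ⟨k, ⟨hk1, hk2⟩, hk3⟩ := F.nonempty_of_mem
    (Filter.inter_mem (Filter.inter_mem hcos hgen) (hbig ε hε))
  obtain ⟨T, hT1, hT2⟩ := hKQ (X k) hk1 hk2 (Nn k) (hNn k) (hNX k)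
  obtain ⟨u, hu, a, hau, haW⟩ := hXS k T (le_trans
    (mul_le_mul_of_nonneg_right hk3 (Nat.cast_nonneg _)) hT1)
  refine haW (hball _ ?_ (hT2 u hu a hau))
  obtain ⟨z, hz⟩ := hX k
  refine ⟨a * z, ?_⟩
  have hz' : ∑ i, (τ i : ℝ) * X k i = z := by
    have := congrArg (fun q : ℚ => (q : ℝ)) hz
    push_cast at this
    exact this
  push_cast
  rw [← hz', Finset.mul_sum]
  exact Finset.sum_congr rfl fun i _ => by ring

/-- The gap theorem.  Let `W` be an open set of the group of the points `x` of the torus with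
`∑ i, τ i * x i` integral.  There is `ε > 0` such that for every torsion point `x`, of order
dividing `N`, either no multiple of `x` prime to `N` is in `W`, or the proportion of these multiples
which are in `W` is at least `ε`. -/
theorem gap (τ : I → ℤ) (W : Set (I → ℝ))
    (hW : ∀ y ∈ W, ∃ δ : ℝ, 0 < δ ∧ ∀ x : I → ℝ, (∃ z : ℤ, ∑ i, (τ i : ℝ) * x i = z) →
      (∀ i, ∃ z : ℤ, |x i - y i - z| < δ) → x ∈ W) :
    ∃ ε : ℝ, 0 < ε ∧ ∀ x : I → ℚ, (∃ z : ℤ, ∑ i, (τ i : ℚ) * x i = z) →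
      ∀ N : ℕ, 0 < N → (∀ i, ∃ z : ℤ, (N : ℚ) * x i = z) →
        (∃ a : ℤ, IsCoprime a (N : ℤ) ∧ (fun i => (a : ℝ) * x i) ∈ W) →
        ∃ S : Finset (ZMod N)ˣ, ε * N.totient ≤ S.card ∧
          ∀ u ∈ S, ∀ a : ℤ, ((a : ℤ) : ZMod N) = ((u : (ZMod N)ˣ) : ZMod N) →
            (fun i => (a : ℝ) * x i) ∈ W := by
  classical
  obtain ⟨ε, hε, h⟩ := gap_one τ W hW
  refine ⟨ε, hε, ?_⟩
  rintro x ⟨z, hz⟩ N hN hNx ⟨a, ha, haW⟩
  have : NeZero N := ⟨hN.ne'⟩
  obtain ⟨S, hS1, hS2⟩ := h (fun i => (a : ℚ) * x i) ⟨a * z, by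
      push_cast
      rw [← hz, Finset.mul_sum]
      exact Finset.sum_congr rfl fun i _ => by ring⟩ N hN
    (fun i => by
      obtain ⟨w, hw⟩ := hNx i
      refine ⟨a * w, ?_⟩
      push_cast
      rw [← hw]
      ring)
    (by push_cast; exact haW)
  have hau : IsUnit ((a : ℤ) : ZMod N) := by
    obtain ⟨u, v, huv⟩ := ha
    have h1 := congrArg (fun k : ℤ => (k : ZMod N)) huv
    push_cast at h1
    rw [ZMod.natCast_self, mul_zero, add_zero] at h1
    exact IsUnit.of_mul_eq_one _ (by rw [mul_comm]; exact h1)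
  let b : (ZMod N)ˣ := hau.unit
  refine ⟨S.image (fun u => u * b), ?_, ?_⟩
  · rw [Finset.card_image_of_injective _ (mul_left_injective b)]
    exact hS1
  · intro v hv e he
    obtain ⟨u, hu, rfl⟩ := Finset.mem_image.mp hv
    -- a representative of `u`
    set k : ℤ := (((u : (ZMod N)ˣ) : ZMod N).val : ℤ) with hk
    have hku : ((k : ℤ) : ZMod N) = ((u : (ZMod N)ˣ) : ZMod N) := by
      rw [hk]; push_cast; rw [ZMod.natCast_zmod_val]
    have h1 := hS2 u hu k hku
    have h2 : ((e - k * a : ℤ) : ZMod N) = 0 := by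
      push_cast
      rw [he, hku, Units.val_mul]
      simp only [b, IsUnit.unit_spec, sub_self]
    rw [ZMod.intCast_zmod_eq_zero_iff_dvd] at h2
    obtain ⟨t, ht⟩ := h2
    -- the points agree modulo the integers
    obtain ⟨δ, hδ, hball⟩ := hW _ h1
    choose w hw using hNx
    refine hball _ ⟨e * z, ?_⟩ fun i => ⟨t * w i, ?_⟩
    · have hz' : ∑ i, (τ i : ℝ) * x i = z := by
        have := congrArg (fun q : ℚ => (q : ℝ)) hz
        push_cast at this
        exact this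
      push_cast
      rw [← hz', Finset.mul_sum]
      exact Finset.sum_congr rfl fun i _ => by ring
    · have hw' : (N : ℝ) * x i = w i := by
        have := congrArg (fun q : ℚ => (q : ℝ)) (hw i)
        push_cast at this
        exact this
      have he' : (e : ℝ) = k * a + N * t := by
        have : e = k * a + N * t := by linarith
        exact_mod_cast this
      have h5 : (e : ℝ) * x i - (k : ℝ) * (((a : ℚ) * x i : ℚ) : ℝ) - ((t * w i : ℤ) : ℝ) = 0 := by
        push_cast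
        rw [he', ← hw']
        ring
      rw [h5, abs_zero]
      exact hδ

end Pool.Agent.Y227.UD
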